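import Pool.Agent.H1.CA.TarP

/-! # MP_ceca85_lc, module PE: choice functions in models of `ZFC⁻` -/

set_option autoImplicit false

open Ordinal Order Set
open scoped ZFSet

namespace CAA

open SF

/-- the choice function given by an enumeration `e` of `b` -/
noncomputable def chF (a b R e : V) : V :=
  (ZFSet.prod a b).sep fun z => ZFSet.pair (fst z) (snd z) ∈ R ∧
    ∃ ξ ∈ dm e, snd z = app e ξ ∧ ∀ η ∈ ξ, ¬ ZFSet.pair (fst z) (app e η) ∈ R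

theorem tm_chF : Tm ZFm (fun _ v => chF (v 0) (v 1) (v 2) (v 3)) := by
  unfold chF
  refine (Tm.sep (R := fun _ v => ZFSet.pair (fst (v 0)) (snd (v 0)) ∈ v 3 ∧
    ∃ ξ ∈ dm (v 4), snd (v 0) = app (v 4) ξ ∧
      ∀ η ∈ ξ, ¬ ZFSet.pair (fst (v 0)) (app (v 4) η) ∈ v 3) ?_
    (Tm.prod (Tm.var 0) (Tm.var 1))).congr fun M k v hv => rfl
  refine (Dfb.pairMem (Tm.fst (Tm.var 0)) (Tm.snd (Tm.var 0)) (Tm.var 3)).and ?_
  refine (Dfb.bex (R := fun _ v => snd (v 1) = app (v 5) (v 0) ∧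
      ∀ η ∈ v 0, ¬ ZFSet.pair (fst (v 1)) (app (v 5) η) ∈ v 4) ktr_zfm (Tm.dm (Tm.var 4))
      ?_).congr fun M k v hv => Iff.rfl
  refine (Dfb.eq (Tm.snd (Tm.var 1)) (Tm.app (Tm.var 5) (Tm.var 0))).and ?_
  exact (Dfb.ball (R := fun _ v => ¬ ZFSet.pair (fst (v 2)) (app (v 6) (v 0)) ∈ v 5) ktr_zfm
    (Tm.var 0) (Dfb.pairMem (Tm.fst (Tm.var 2)) (Tm.app (Tm.var 6) (Tm.var 0))
      (Tm.var 5)).not).congr fun M k v hv => Iff.rfl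

theorem pf_PE : T_PE := by
  intro M hM a b R ha hb hR hab
  have k := hM.toZFm
  obtain ⟨α, e, he, hfe, hon⟩ := hM.wo b hb
  have hdm : ∀ ξ : V, ξ ∈ dm e ↔ ∃ ζ < α, ζ.toZFSet = ξ := by
    intro ξ
    rw [mem_dm]
    constructor
    · rintro ⟨y, hy⟩
      obtain ⟨ζ, hζ, h2⟩ := mem_toZFSet_iff.1 (ZFSet.pair_mem_prod.1 (hfe.1 hy)).1
      exact ⟨ζ, hζ, h2⟩
    · rintro ⟨ζ, hζ, rfl⟩
      exact ⟨_, pair_app_mem hfe (toZFSet_mem_toZFSet_iff.2 hζ)⟩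
  have hfM : M (chF a b R e) := by
    have h := tm_chF.1 M k (fun i => match i with
      | 0 => a
      | 1 => b
      | 2 => R
      | _ => e) (fun i => by
        match i with
        | 0 => exact ha
        | 1 => exact hb
        | 2 => exact hR
        | _ + 3 => exact he)
    exact h
  have hmem : ∀ x y, ZFSet.pair x y ∈ chF a b R e ↔ x ∈ a ∧ y ∈ b ∧ ZFSet.pair x y ∈ R ∧
      ∃ ξ < α, y = app e ξ.toZFSet ∧ ∀ η < ξ, ¬ ZFSet.pair x (app e η.toZFSet) ∈ R := by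
    intro x y
    unfold chF
    rw [ZFSet.mem_sep, ZFSet.pair_mem_prod, fst_pair, snd_pair]
    constructor
    · rintro ⟨⟨h1, h2⟩, h3, ξ, hξ, h4, h5⟩
      obtain ⟨ζ, hζ, rfl⟩ := (hdm ξ).1 hξ
      exact ⟨h1, h2, h3, ζ, hζ, h4, fun η hη => h5 _ (toZFSet_mem_toZFSet_iff.2 hη)⟩
    · rintro ⟨h1, h2, h3, ζ, hζ, h4, h5⟩
      refine ⟨⟨h1, h2⟩, h3, ζ.toZFSet, (hdm _).2 ⟨ζ, hζ, rfl⟩, h4, fun η hη => ?_⟩
      obtain ⟨η', hη', rfl⟩ := mem_toZFSet_iff.1 hη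
      exact h5 η' hη'
  have hex : ∀ x ∈ a, ∃ y, ZFSet.pair x y ∈ chF a b R e := by
    intro x hx
    obtain ⟨y, hy, hxy⟩ := hab x hx
    obtain ⟨c, hc, hcy⟩ := hon y hy
    obtain ⟨ξ, hξ, rfl⟩ := mem_toZFSet_iff.1 hc
    have hne : {ξ : Ordinal.{0} | ξ < α ∧ ZFSet.pair x (app e ξ.toZFSet) ∈ R}.Nonempty := by
      refine ⟨ξ, hξ, ?_⟩
      rw [app_eq (svl_of_isFunc hfe) hcy]
      exact hxy
    have h1 := csInf_mem hne
    refine ⟨_, (hmem x _).2 ⟨hx, app_mem hfe (toZFSet_mem_toZFSet_iff.2 h1.1), h1.2, _, h1.1, rfl,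
      fun η hη hR => ?_⟩⟩
    exact absurd (csInf_le' (s := {ξ : Ordinal.{0} | ξ < α ∧
      ZFSet.pair x (app e ξ.toZFSet) ∈ R}) ⟨hη.trans h1.1, hR⟩) (not_le.2 hη)
  have huni : Svl (chF a b R e) := by
    intro x y z hy hz
    obtain ⟨-, -, h1, ξ, hξ, rfl, h2⟩ := (hmem x y).1 hy
    obtain ⟨-, -, h3, ζ, hζ, rfl, h4⟩ := (hmem x z).1 hz
    rcases lt_trichotomy ξ ζ with h | h | h
    · exact absurd h1 (h4 ξ h)
    · rw [h]
    · exact absurd h3 (h2 ζ h)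
  refine ⟨chF a b R e, hfM, ⟨fun z hz => ?_, fun x hx => ?_⟩, fun x hx => ?_⟩
  · exact (ZFSet.mem_sep.1 hz).1
  · obtain ⟨y, hy⟩ := hex x hx
    exact ⟨y, hy, fun z hz => huni x z y hz hy⟩
  · obtain ⟨y, hy⟩ := hex x hx
    rw [app_eq huni hy]
    exact ((hmem x y).1 hy).2.2.1

end CAA
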