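import Pool.Agent.H37.CA.Targets2
import Pool.Agent.H58.R2.Ind

/-!
# Board cma_modules, row FSI: the Frobenius-Schur indicator of an induced character
-/

set_option autoImplicit false

open NumberField Complex Filter Topology

namespace Pool.Agent.H66.CA

open Pool.Agent.H37.CA Pool.Agent.H37.CV Pool.Agent.H28.RC Pool.Agent.H25 Pool.Agent.H25.HK

open scoped Classical in
/-- the extension of a character by zero -/
private noncomputable def ex {G : Type} [Group G] (A : Subgroup G) (φ : A →* ℂˣ) (g : G) : ℂ :=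
  if h : g ∈ A then ((φ ⟨g, h⟩ : ℂˣ) : ℂ) else 0

private theorem sum_coset {G : Type} [Group G] (A : Subgroup G) [Fintype A] [hN : A.Normal]
    (φ : A →* ℂˣ) (hφ : φ ∈ Nsd A) (g : G) : ∑ a : A, ex A φ ((g * a) ^ 2) = 0 := by
  classical
  have hc : ∀ a : A, g⁻¹ * (a : G) * g ∈ A := fun a => by
    have := hN.conj_mem (a : G) a.2 g⁻¹
    rwa [inv_inv] at this
  have he : ∀ a : A, (g * (a : G)) ^ 2 = g ^ 2 * ((g⁻¹ * (a : G) * g) * a) := by
    intro a
    rw [pow_two, pow_two]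
    group
  by_cases hg : g ^ 2 ∈ A
  · -- the homomorphism
    have hterm : ∀ a : A, ex A φ ((g * (a : G)) ^ 2) =
        ((φ ⟨g ^ 2, hg⟩ : ℂˣ) : ℂ) * (((φ ⟨_, hc a⟩ * φ a : ℂˣ)) : ℂ) := by
      intro a
      have hm : (g * (a : G)) ^ 2 ∈ A := by
        rw [he]
        exact A.mul_mem hg (A.mul_mem (hc a) a.2)
      unfold ex
      rw [dif_pos hm, ← Units.val_mul, ← map_mul, ← map_mul]
      congr 2
      exact Subtype.ext (he a)
    rw [Finset.sum_congr rfl fun a _ => hterm a, ← Finset.mul_sum]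
    obtain ⟨b, hb, hne⟩ := hφ g
    have hmul : ∀ a : A, (φ ⟨_, hc (b * a)⟩ * φ (b * a) : ℂˣ) =
        (φ ⟨_, hc b⟩ * φ b) * (φ ⟨_, hc a⟩ * φ a) := by
      intro a
      have h1 : (⟨_, hc (b * a)⟩ : A) = ⟨_, hc b⟩ * ⟨_, hc a⟩ := by
        apply Subtype.ext
        simp only [Subgroup.coe_mul]
        group
      rw [h1, map_mul, map_mul]
      exact mul_mul_mul_comm _ _ _ _
    have hs : ∑ a : A, (((φ ⟨_, hc a⟩ * φ a : ℂˣ)) : ℂ) =
        (((φ ⟨_, hc b⟩ * φ b : ℂˣ)) : ℂ) * ∑ a : A, (((φ ⟨_, hc a⟩ * φ a : ℂˣ)) : ℂ) := by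
      rw [Finset.mul_sum]
      rw [← Equiv.sum_comp (Equiv.mulLeft b) (fun a : A => (((φ ⟨_, hc a⟩ * φ a : ℂˣ)) : ℂ))]
      refine Finset.sum_congr rfl fun a _ => ?_
      rw [← Units.val_mul, ← hmul a]
      rfl
    have hne' : (((φ ⟨_, hc b⟩ * φ b : ℂˣ)) : ℂ) ≠ 1 := by
      intro h
      exact hne (Units.ext h)
    have h0 : ((((φ ⟨_, hc b⟩ * φ b : ℂˣ)) : ℂ) - 1) *
        ∑ a : A, (((φ ⟨_, hc a⟩ * φ a : ℂˣ)) : ℂ) = 0 := by
      rw [sub_mul, one_mul, ← hs, sub_self]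
    rcases mul_eq_zero.1 h0 with h | h
    · exact absurd (sub_eq_zero.1 h) hne'
    · rw [h, mul_zero]
  · refine Finset.sum_eq_zero fun a _ => ?_
    unfold ex
    rw [dif_neg]
    intro hm
    rw [he] at hm
    exact hg ((A.mul_mem_cancel_right (A.mul_mem (hc a) a.2)).1 hm)

theorem pf_FSI : T_FSI := by
  classical
  intro G _ _ A _ _ φ hφ
  have := Fintype.ofFinite G
  have := Fintype.ofFinite A
  have hA0 : (Nat.card A : ℂ) ≠ 0 := Nat.cast_ne_zero.2 Nat.card_pos.ne'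
  have h2 : ∑ g : G, ex A φ (g ^ 2) = 0 := by
    have h3 : ∑ g : G, ∑ a : A, ex A φ ((g * a) ^ 2) = 0 :=
      Finset.sum_eq_zero fun g _ => sum_coset A φ hφ g
    rw [Finset.sum_comm] at h3
    have h4 : ∀ a : A, ∑ g : G, ex A φ ((g * a) ^ 2) = ∑ g : G, ex A φ (g ^ 2) := fun a =>
      Equiv.sum_comp (Equiv.mulRight (a : G)) (fun g => ex A φ (g ^ 2))
    rw [Finset.sum_congr rfl fun a _ => h4 a, Finset.sum_const, Finset.card_univ,
      nsmul_eq_mul, ← Nat.card_eq_fintype_card] at h3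
    exact (mul_eq_zero.1 h3).resolve_left hA0
  have h5 : ∑ g : G, indc A φ (g ^ 2) = 0 := by
    have h6 : (Nat.card A : ℂ) * ∑ g : G, indc A φ (g ^ 2) = 0 := by
      rw [Finset.mul_sum]
      rw [Finset.sum_congr rfl fun g _ => Pool.Agent.H58.R2.indc_sum A φ (g ^ 2),
        Finset.sum_comm]
      refine Finset.sum_eq_zero fun y _ => ?_
      have h7 : ∀ g : G, Pool.Agent.H58.R2.tm A φ (g ^ 2) y = ex A φ ((y⁻¹ * g * y) ^ 2) := by
        intro g
        have e : y⁻¹ * g ^ 2 * y = (y⁻¹ * g * y) ^ 2 := by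
          rw [pow_two, pow_two]; group
        unfold Pool.Agent.H58.R2.tm ex
        by_cases h : y⁻¹ * g ^ 2 * y ∈ A
        · have h' := h
          rw [e] at h'
          rw [dif_pos h, dif_pos h']
          congr 2
          exact Subtype.ext e
        · have h' := h
          rw [e] at h'
          rw [dif_neg h, dif_neg h']
      rw [Finset.sum_congr rfl fun g _ => h7 g]
      have h8 := Equiv.sum_comp ((Equiv.mulLeft y⁻¹).trans (Equiv.mulRight y))
        (fun g => ex A φ (g ^ 2))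
      rw [h2] at h8
      exact h8
    exact (mul_eq_zero.1 h6).resolve_left hA0
  unfold nu
  rw [finsum_eq_sum_of_fintype, h5, mul_zero]

end Pool.Agent.H66.CA
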