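import Pool.Agent.H37.CA.Targets2

/-!
# Board cma_modules, row FXY: the residue classes `y` modulo `q` with `σ(y) y = 1`
-/

set_option autoImplicit false

open NumberField Complex Filter Topology

namespace Pool.Agent.H66.CA

open Pool.Agent.H37.CA Pool.Agent.H37.CV Pool.Agent.H28.RC Pool.Agent.H25 Pool.Agent.H25.HK

section Ring

variable {R : Type*} [CommRing R]

/-- at most two roots in a domain -/
private theorem roots_two {k : Type*} [CommRing k] [IsDomain k] [Finite k] (a b : k) :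
    {x : k | x ^ 2 - a * x + b = 0}.ncard ≤ 2 := by
  classical
  by_cases h : ∃ x₀ : k, x₀ ^ 2 - a * x₀ + b = 0
  · obtain ⟨x₀, h0⟩ := h
    have hsub : {x : k | x ^ 2 - a * x + b = 0} ⊆ {x₀, a - x₀} := by
      intro x hx
      have hx' : x ^ 2 - a * x + b = 0 := hx
      have h1 : (x - x₀) * (x - (a - x₀)) = 0 := by
        linear_combination hx' - h0
      rcases mul_eq_zero.1 h1 with h2 | h2
      · exact Or.inl (sub_eq_zero.1 h2)
      · exact Or.inr (sub_eq_zero.1 h2)
    refine (Set.ncard_le_ncard hsub (Set.toFinite _)).trans ?_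
    refine (Set.ncard_insert_le _ _).trans ?_
    rw [Set.ncard_singleton]
  · have : {x : k | x ^ 2 - a * x + b = 0} = ∅ := by
      ext x
      simp only [Set.mem_ofPred_eq, Set.mem_empty_iff_false, iff_false]
      exact fun hx => h ⟨x, hx⟩
    rw [this, Set.ncard_empty]
    exact Nat.zero_le _

/-- the number of the roots in a reduced ring -/
private theorem roots_ring [Finite R] [IsReduced R] (q d : ℕ) (hq : q.Prime)
    (hqR : (q : R) = 0) (hcard : Nat.card R = q ^ d) (a b : R) :
    {x : R | x ^ 2 - a * x + b = 0}.ncard ≤ 2 ^ d := by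
  classical
  have : IsArtinianRing R := inferInstance
  have : Finite (MaximalSpectrum R) := inferInstance
  have := Fintype.ofFinite (MaximalSpectrum R)
  have hfin : ∀ I : MaximalSpectrum R, Finite (R ⧸ I.asIdeal) := fun I =>
    Finite.of_surjective _ Ideal.Quotient.mk_surjective
  let e := IsArtinianRing.equivPi R
  have hcard1 : Nat.card R = ∏ I : MaximalSpectrum R, Nat.card (R ⧸ I.asIdeal) := by
    rw [Nat.card_congr e.toEquiv, Nat.card_pi]
  have hge : ∀ I : MaximalSpectrum R, q ≤ Nat.card (R ⧸ I.asIdeal) := by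
    intro I
    have hI := I.isMaximal
    have hnt : Nontrivial (R ⧸ I.asIdeal) := Ideal.Quotient.nontrivial_iff.2 hI.ne_top
    have h0 : (q : R ⧸ I.asIdeal) = 0 := by
      have := congrArg (Ideal.Quotient.mk I.asIdeal) hqR
      simpa using this
    have h1 : addOrderOf (1 : R ⧸ I.asIdeal) ∣ q := by
      rw [addOrderOf_dvd_iff_nsmul_eq_zero]
      simpa using h0
    have h2 : addOrderOf (1 : R ⧸ I.asIdeal) ≠ 1 := by
      intro h
      rw [AddMonoid.addOrderOf_eq_one_iff] at h
      exact one_ne_zero h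
    have h3 : addOrderOf (1 : R ⧸ I.asIdeal) = q := (Nat.dvd_prime hq).1 h1 |>.resolve_left h2
    have h4 : addOrderOf (1 : R ⧸ I.asIdeal) ∣ Nat.card (R ⧸ I.asIdeal) := addOrderOf_dvd_natCard _
    rw [h3] at h4
    exact Nat.le_of_dvd Nat.card_pos h4
  have hM : Fintype.card (MaximalSpectrum R) ≤ d := by
    have h1 : q ^ Fintype.card (MaximalSpectrum R) ≤ q ^ d := by
      rw [← hcard, hcard1]
      calc q ^ Fintype.card (MaximalSpectrum R) = ∏ _I : MaximalSpectrum R, q := by
            rw [Finset.prod_const, Finset.card_univ]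
        _ ≤ _ := Finset.prod_le_prod' fun I _ => hge I
    exact (Nat.pow_le_pow_iff_right hq.one_lt).1 h1
  -- the injection
  let S : Set R := {x : R | x ^ 2 - a * x + b = 0}
  let T : ∀ I : MaximalSpectrum R, Set (R ⧸ I.asIdeal) := fun I =>
    {x | x ^ 2 - (Ideal.Quotient.mk I.asIdeal a) * x + Ideal.Quotient.mk I.asIdeal b = 0}
  have hT : ∀ I, (T I).ncard ≤ 2 := by
    intro I
    have hI := I.isMaximal
    have : IsDomain (R ⧸ I.asIdeal) := Ideal.Quotient.isDomain I.asIdeal
    exact roots_two _ _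
  let F : S → ∀ I : MaximalSpectrum R, T I := fun x I => ⟨Ideal.Quotient.mk I.asIdeal x.1, by
    have h := x.2
    have h' : x.1 ^ 2 - a * x.1 + b = 0 := h
    have := congrArg (Ideal.Quotient.mk I.asIdeal) h'
    change (Ideal.Quotient.mk I.asIdeal) x.1 ^ 2 - (Ideal.Quotient.mk I.asIdeal) a *
      (Ideal.Quotient.mk I.asIdeal) x.1 + (Ideal.Quotient.mk I.asIdeal) b = 0
    simpa using this⟩
  have hF : Function.Injective F := by
    intro x y hxy
    apply Subtype.ext
    apply e.injective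
    funext I
    have := congrArg Subtype.val (congrFun hxy I)
    exact this
  have h5 : Nat.card S ≤ Nat.card (∀ I : MaximalSpectrum R, T I) :=
    Nat.card_le_card_of_injective F hF
  rw [Nat.card_pi] at h5
  calc S.ncard = Nat.card S := rfl
    _ ≤ ∏ I : MaximalSpectrum R, Nat.card (T I) := h5
    _ ≤ ∏ _I : MaximalSpectrum R, 2 := Finset.prod_le_prod' fun I _ => hT I
    _ = 2 ^ Fintype.card (MaximalSpectrum R) := by rw [Finset.prod_const, Finset.card_univ]
    _ ≤ 2 ^ d := Nat.pow_le_pow_right (by norm_num) hM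

end Ring

section NF

variable (F : Type) [Field F] [NumberField F]

open UniqueFactorizationMonoid in
private theorem reduced (q : ℕ) (hq : q.Prime) (hd : ¬ ((q : ℤ) ∣ discr F)) :
    IsReduced (𝓞 F ⧸ qi F q) := by
  classical
  have hq0 : qi F q ≠ ⊥ := by
    unfold qi
    rw [Ne, Ideal.span_singleton_eq_bot]
    exact_mod_cast hq.ne_zero
  have hmap : (Ideal.span {(q : ℤ)}).map (algebraMap ℤ (𝓞 F)) = qi F q := by
    unfold qi
    rw [Ideal.map_span, Set.image_singleton]
    simp
  have hun := (NumberField.not_dvd_discr_iff_forall_mem F (𝓞 F)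
    (Nat.prime_iff_prime_int.1 hq)).1 hd
  have hsq : Squarefree (qi F q) := by
    rw [squarefree_iff_nodup_normalizedFactors hq0, Multiset.nodup_iff_count_le_one]
    intro P
    by_cases hP : P ∈ normalizedFactors (qi F q)
    · have hPp : P.IsPrime := Ideal.isPrime_of_prime (prime_of_normalized_factor P hP)
      have hle : qi F q ≤ P := Ideal.le_of_dvd (dvd_of_mem_normalizedFactors hP)
      have hmem : ((q : ℤ) : 𝓞 F) ∈ P := by
        refine hle ?_
        unfold qi
        rw [Int.cast_natCast]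
        exact Ideal.mem_span_singleton_self _
      have h1 := hun P hPp hmem
      have hlo : P.LiesOver (Ideal.span {(q : ℤ)}) :=
        (Ideal.liesOver_span_iff hPp.ne_top (Nat.prime_iff_prime_int.1 hq)).mpr hmem
      have h2 := Ideal.IsDedekindDomain.ramificationIdx_eq_normalizedFactors_count
        (Ideal.span {(q : ℤ)}) P (by rw [hmap]; exact hq0)
      rw [hmap, Ideal.ramificationIdx_eq_one_of_isUnramifiedAt] at h2
      exact h2.symm.le
    · rw [Multiset.count_eq_zero_of_notMem hP]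
      exact Nat.zero_le _
  have hrad : IsRadical (qi F q) := (isRadical_iff_squarefree_of_ne_zero hq0).2 hsq
  have hrad' : (qi F q).IsRadical := by
    intro x hx
    obtain ⟨n, hn⟩ := hx
    have h1 : qi F q ∣ (Ideal.span {x}) ^ n := by
      rw [Ideal.span_singleton_pow, Ideal.dvd_span_singleton]
      exact hn
    exact Ideal.dvd_span_singleton.1 (hrad n _ h1)
  exact (Ideal.isRadical_iff_quotient_reduced _).1 hrad'

theorem pf_FXY (hFXP : T_FXP) : T_FXY := by
  classical
  intro F _ _ _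
  refine ⟨Module.finrank ℚ F + (discr F).natAbs + 1, ?_⟩
  intro q hq hq0 σ
  have hdisc : ¬ ((q : ℤ) ∣ discr F) := by
    intro h
    have h1 : q ∣ (discr F).natAbs := Int.natCast_dvd.1 h
    have h2 := Nat.le_of_dvd (Int.natAbs_pos.2 (discr_ne_zero F)) h1
    omega
  have hred := reduced F q hq hdisc
  have hqb : qi F q ≠ ⊥ := by
    unfold qi
    rw [Ne, Ideal.span_singleton_eq_bot]
    exact_mod_cast hq.ne_zero
  have hfin : Finite (𝓞 F ⧸ qi F q) := Ideal.finiteQuotientOfFreeOfNeBot _ hqb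
  have hqR : ((q : ℕ) : 𝓞 F ⧸ qi F q) = 0 := by
    have h : (Ideal.Quotient.mk (qi F q)) (q : 𝓞 F) = 0 := by
      rw [Ideal.Quotient.eq_zero_iff_mem]
      unfold qi
      exact Ideal.mem_span_singleton_self _
    simpa using h
  have hcard : Nat.card (𝓞 F ⧸ qi F q) = q ^ Module.finrank ℚ F := by
    have h1 : Ideal.absNorm (qi F q) = q ^ Module.finrank ℚ F := by
      unfold qi
      rw [Ideal.absNorm_span_natCast, RingOfIntegers.rank]
    rw [← h1, Ideal.absNorm_apply, Submodule.cardQuot_apply]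
  have hroots : ∀ a b : 𝓞 F ⧸ qi F q,
      {x : 𝓞 F ⧸ qi F q | x ^ 2 - a * x + b = 0}.ncard ≤ 2 ^ Module.finrank ℚ F :=
    fun a b => roots_ring q _ hq hqR hcard a b
  have hσq : ∀ x : 𝓞 F, x ∈ qi F q → σ • x ∈ qi F q := by
    intro x hx
    unfold qi at hx ⊢
    rw [Ideal.mem_span_singleton] at hx ⊢
    obtain ⟨y, rfl⟩ := hx
    refine ⟨σ • y, ?_⟩
    rw [smul_mul']
    congr 1
    exact map_natCast (MulSemiringAction.toRingHom (F ≃ₐ[ℚ] F) (𝓞 F) σ) q
  by_cases hσ : σ = 1
  · subst hσ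
    have hsub : {y : 𝓞 F ⧸ qi F q | ∃ x : 𝓞 F, Ideal.Quotient.mk (qi F q) x = y ∧
        ((1 : F ≃ₐ[ℚ] F) • x) * x - 1 ∈ qi F q} ⊆
        {x : 𝓞 F ⧸ qi F q | x ^ 2 - 0 * x + (-1) = 0} := by
      rintro y ⟨x, rfl, hx⟩
      rw [one_smul, ← Ideal.Quotient.eq_zero_iff_mem] at hx
      simp only [Set.mem_ofPred_eq]
      rw [map_sub, map_mul, map_one] at hx
      linear_combination hx
    have h1 := (Set.ncard_le_ncard hsub (Set.toFinite _)).trans (hroots 0 (-1))
    calc _ ≤ (2 ^ Module.finrank ℚ F) ^ 2 := Nat.pow_le_pow_left h1 2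
      _ = 4 ^ Module.finrank ℚ F := by rw [← pow_mul, mul_comm, pow_mul]; norm_num
      _ ≤ _ := Nat.le_mul_of_pos_right _ (pow_pos hq.pos _)
  · have hT := hFXP F q hq (by omega) σ hσ
    set T := {y : 𝓞 F ⧸ qi F q | ∃ x : 𝓞 F, Ideal.Quotient.mk (qi F q) x = y ∧
      σ • x - x ∈ qi F q} with hTdef
    have hsub : {y : 𝓞 F ⧸ qi F q | ∃ x : 𝓞 F, Ideal.Quotient.mk (qi F q) x = y ∧
        (σ • x) * x - 1 ∈ qi F q} ⊆
        ⋃ t ∈ (Set.toFinite T).toFinset, {x : 𝓞 F ⧸ qi F q | x ^ 2 - t * x + 1 = 0} := by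
      rintro y ⟨x, rfl, hx⟩
      have h1 : σ • (σ • x) * (σ • x) - 1 ∈ qi F q := by
        have := hσq _ hx
        rwa [smul_sub, smul_mul', smul_one] at this
      have h2 : σ • (x + σ • x) - (x + σ • x) ∈ qi F q := by
        have h3 : (σ • x) * x - 1 ∈ qi F q := hx
        have h4 : σ • (x + σ • x) - (x + σ • x) =
            x * (σ • (σ • x) * (σ • x) - 1) - (σ • (σ • x)) * ((σ • x) * x - 1) := by
          rw [smul_add]
          ring
        rw [h4]
        exact Ideal.sub_mem _ (Ideal.mul_mem_left _ _ h1) (Ideal.mul_mem_left _ _ h3)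
      simp only [Set.mem_iUnion, Set.Finite.mem_toFinset]
      refine ⟨Ideal.Quotient.mk (qi F q) (x + σ • x), ⟨_, rfl, h2⟩, ?_⟩
      rw [← Ideal.Quotient.eq_zero_iff_mem, map_sub, map_mul, map_one] at hx
      simp only [Set.mem_ofPred_eq, map_add]
      linear_combination -hx
    have h1 : {y : 𝓞 F ⧸ qi F q | ∃ x : 𝓞 F, Ideal.Quotient.mk (qi F q) x = y ∧
        (σ • x) * x - 1 ∈ qi F q}.ncard ≤ T.ncard * 2 ^ Module.finrank ℚ F := by
      refine (Set.ncard_le_ncard hsub (Set.toFinite _)).trans ?_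
      refine (Finset.set_ncard_biUnion_le _ _).trans ?_
      refine (Finset.sum_le_card_nsmul _ _ _ fun t _ => hroots t 1).trans ?_
      rw [smul_eq_mul, Set.ncard_eq_toFinset_card T (Set.toFinite T)]
    calc _ ≤ (T.ncard * 2 ^ Module.finrank ℚ F) ^ 2 := Nat.pow_le_pow_left h1 2
      _ = T.ncard ^ 2 * 4 ^ Module.finrank ℚ F := by
        rw [mul_pow, ← pow_mul, mul_comm (Module.finrank ℚ F) 2, pow_mul]; norm_num
      _ ≤ q ^ Module.finrank ℚ F * 4 ^ Module.finrank ℚ F := Nat.mul_le_mul_right _ hT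
      _ = _ := mul_comm _ _

end NF

end Pool.Agent.H66.CA
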